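import Mathlib

section
set_option autoImplicit false

/-!
The Gauss decomposition `4 Φ_q = A^2 + q B^2` for a prime `q = 3 mod 4`, `q > 3`, with
control of the values of `A`, `B` at `1`, `-1`, at every `x` modulo `q`, and at a root of `Φ_q`.
-/

namespace Pool.Agent.Lib.MP_d1f1b5_nt.QR

open Finset Polynomial

section defs

variable (q : ℕ) [Fact q.Prime]

/-- the nonzero squares mod `q` -/
def Sq : Finset (ZMod q) := univ.filter (fun r => quadraticChar (ZMod q) r = 1)

/-- the nonsquares mod `q` -/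
def NSq : Finset (ZMod q) := univ.filter (fun r => quadraticChar (ZMod q) r = -1)

/-- coefficient polynomials of the product over the squares -/
noncomputable def cc (j : ZMod q) : ℤ[X] :=
  ∑ t ∈ (Sq q).powerset with (∑ r ∈ t, r) = j, (-1) ^ t.card * X ^ (Sq q \ t).card

noncomputable def AA : ℤ[X] := 2 * cc q 0 - cc q 1 - cc q (-1)

noncomputable def BB : ℤ[X] := cc q 1 - cc q (-1)

end defs

variable {q : ℕ} [Fact q.Prime]

theorem psi_sum {R : Type*} [CommRing R] (ψ : AddChar (ZMod q) R) (t : Finset (ZMod q)) :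
    ψ (∑ r ∈ t, r) = ∏ r ∈ t, ψ r := by
  classical
  induction t using Finset.induction_on with
  | empty => simp
  | insert a s ha ih =>
    rw [Finset.sum_insert ha, Finset.prod_insert ha, AddChar.map_add_eq_mul, ih]

theorem prod_expand {R : Type*} [CommRing R] (ψ : AddChar (ZMod q) R) (x : R) :
    ∏ r ∈ Sq q, (x - ψ r) = ∑ j : ZMod q, aeval x (cc q j) * ψ j := by
  have h1 : ∏ r ∈ Sq q, (x - ψ r) = ∏ r ∈ Sq q, (-ψ r + x) := by
    refine prod_congr rfl fun r _ => by ring
  rw [h1, Finset.prod_add]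
  have h2 : ∀ t ∈ (Sq q).powerset, (∏ r ∈ t, -ψ r) * ∏ r ∈ Sq q \ t, x
      = aeval x ((-1) ^ t.card * X ^ (Sq q \ t).card : ℤ[X]) * ψ (∑ r ∈ t, r) := by
    intro t _
    rw [Finset.prod_neg, Finset.prod_const, psi_sum]
    simp
    ring
  rw [Finset.sum_congr rfl h2, ← Finset.sum_fiberwise _ (fun t => ∑ r ∈ t, r)]
  refine Finset.sum_congr rfl fun j _ => ?_
  rw [cc, map_sum, Finset.sum_mul]
  refine Finset.sum_congr rfl fun t ht => ?_
  rw [(Finset.mem_filter.mp ht).2]

theorem mem_Sq {r : ZMod q} : r ∈ Sq q ↔ quadraticChar (ZMod q) r = 1 := by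
  simp [Sq]

theorem mem_NSq {r : ZMod q} : r ∈ NSq q ↔ quadraticChar (ZMod q) r = -1 := by
  simp [NSq]

theorem cc_mul {s : ZMod q} (hs : s ∈ Sq q) (j : ZMod q) : cc q (s * j) = cc q j := by
  have hs1 : quadraticChar (ZMod q) s = 1 := mem_Sq.mp hs
  have hs0 : s ≠ 0 := by
    rintro rfl
    simp at hs1
  have hinj : Function.Injective (fun r : ZMod q => s * r) := mul_right_injective₀ hs0
  have hinj' : Function.Injective (fun r : ZMod q => s⁻¹ * r) :=
    mul_right_injective₀ (inv_ne_zero hs0)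
  have hSq : ∀ r, s * r ∈ Sq q ↔ r ∈ Sq q := by
    intro r
    rw [mem_Sq, mem_Sq, map_mul, hs1, one_mul]
  have hSq' : ∀ r, s⁻¹ * r ∈ Sq q ↔ r ∈ Sq q := by
    intro r
    rw [← hSq (s⁻¹ * r), mul_inv_cancel_left₀ hs0]
  symm
  unfold cc
  refine Finset.sum_nbij' (fun t => t.image (fun r => s * r)) (fun t => t.image (fun r => s⁻¹ * r))
    ?_ ?_ ?_ ?_ ?_
  · intro t ht
    simp only [mem_filter, mem_powerset] at ht ⊢
    refine ⟨?_, ?_⟩
    · intro r hr
      obtain ⟨u, hu, rfl⟩ := Finset.mem_image.mp hr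
      exact (hSq u).mpr (ht.1 hu)
    · rw [Finset.sum_image (fun a _ b _ h => hinj h), ← Finset.mul_sum, ht.2]
  · intro t ht
    simp only [mem_filter, mem_powerset] at ht ⊢
    refine ⟨?_, ?_⟩
    · intro r hr
      obtain ⟨u, hu, rfl⟩ := Finset.mem_image.mp hr
      exact (hSq' u).mpr (ht.1 hu)
    · rw [Finset.sum_image (fun a _ b _ h => hinj' h), ← Finset.mul_sum, ht.2,
        inv_mul_cancel_left₀ hs0]
  · intro t _
    rw [Finset.image_image]
    have : ((fun r => s⁻¹ * r) ∘ fun r => s * r) = (id : ZMod q → ZMod q) := by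
      funext r
      simp [inv_mul_cancel_left₀ hs0]
    rw [this, Finset.image_id]
  · intro t _
    rw [Finset.image_image]
    have : ((fun r => s * r) ∘ fun r => s⁻¹ * r) = (id : ZMod q → ZMod q) := by
      funext r
      simp [mul_inv_cancel_left₀ hs0]
    rw [this, Finset.image_id]
  · intro t ht
    simp only [mem_filter, mem_powerset] at ht
    have hsub : t.image (fun r => s * r) ⊆ Sq q := by
      intro r hr
      obtain ⟨u, hu, rfl⟩ := Finset.mem_image.mp hr
      exact (hSq u).mpr (ht.1 hu)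
    have hc : (t.image (fun r => s * r)).card = t.card := Finset.card_image_of_injective _ hinj
    rw [Finset.card_sdiff_of_subset hsub, Finset.card_sdiff_of_subset ht.1, hc]

theorem univ_split : (univ : Finset (ZMod q)) = {0} ∪ (Sq q ∪ NSq q) := by
  ext r
  simp only [mem_univ, mem_union, mem_singleton, mem_Sq, mem_NSq, true_iff]
  by_cases hr : r = 0
  · exact Or.inl hr
  · exact Or.inr (quadraticChar_dichotomy hr)

theorem disj1 : Disjoint (Sq q) (NSq q) := by
  rw [Finset.disjoint_left]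
  intro r h1 h2
  rw [mem_Sq] at h1
  rw [mem_NSq] at h2
  rw [h1] at h2
  norm_num at h2

theorem disj0 : Disjoint ({0} : Finset (ZMod q)) (Sq q ∪ NSq q) := by
  rw [Finset.disjoint_singleton_left]
  intro h
  rcases Finset.mem_union.mp h with h | h
  · rw [mem_Sq] at h
    simp at h
  · rw [mem_NSq] at h
    simp at h

theorem sum_split {M : Type*} [AddCommMonoid M] (f : ZMod q → M) :
    ∑ j, f j = f 0 + (∑ j ∈ Sq q, f j + ∑ j ∈ NSq q, f j) := by
  rw [univ_split, Finset.sum_union disj0, Finset.sum_union disj1, Finset.sum_singleton]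

theorem prod_split {M : Type*} [CommMonoid M] (f : ZMod q → M) :
    ∏ j, f j = f 0 * ((∏ j ∈ Sq q, f j) * ∏ j ∈ NSq q, f j) := by
  rw [univ_split, Finset.prod_union disj0, Finset.prod_union disj1, Finset.prod_singleton]

theorem chi_neg_one (h : q % 4 = 3) : quadraticChar (ZMod q) (-1) = -1 := by
  have h2 : ringChar (ZMod q) ≠ 2 := by
    rw [ZMod.ringChar_zmod_n]
    omega
  rw [quadraticChar_neg_one h2, ZMod.card]
  exact ZMod.χ₄_nat_three_mod_four h

theorem neg_mem_NSq (h : q % 4 = 3) {r : ZMod q} (hr : r ∈ Sq q) : -r ∈ NSq q := by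
  rw [mem_Sq] at hr
  rw [mem_NSq, ← neg_one_mul, map_mul, chi_neg_one h, hr]
  norm_num

theorem neg_mem_Sq (h : q % 4 = 3) {r : ZMod q} (hr : r ∈ NSq q) : -r ∈ Sq q := by
  rw [mem_NSq] at hr
  rw [mem_Sq, ← neg_one_mul, map_mul, chi_neg_one h, hr]
  norm_num

theorem sum_neg {M : Type*} [AddCommMonoid M] (h : q % 4 = 3) (f : ZMod q → M) :
    ∑ j ∈ Sq q, f (-j) = ∑ j ∈ NSq q, f j := by
  refine Finset.sum_nbij' (fun j => -j) (fun j => -j) (fun j hj => neg_mem_NSq h hj)
    (fun j hj => neg_mem_Sq h hj) (fun j _ => neg_neg j) (fun j _ => neg_neg j) (fun j _ => rfl)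

theorem sum_neg' {M : Type*} [AddCommMonoid M] (h : q % 4 = 3) (f : ZMod q → M) :
    ∑ j ∈ NSq q, f (-j) = ∑ j ∈ Sq q, f j := by
  refine Finset.sum_nbij' (fun j => -j) (fun j => -j) (fun j hj => neg_mem_Sq h hj)
    (fun j hj => neg_mem_NSq h hj) (fun j _ => neg_neg j) (fun j _ => neg_neg j) (fun j _ => rfl)

theorem prod_neg' {M : Type*} [CommMonoid M] (h : q % 4 = 3) (f : ZMod q → M) :
    ∏ j ∈ Sq q, f (-j) = ∏ j ∈ NSq q, f j := by
  refine Finset.prod_nbij' (fun j => -j) (fun j => -j) (fun j hj => neg_mem_NSq h hj)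
    (fun j hj => neg_mem_Sq h hj) (fun j _ => neg_neg j) (fun j _ => neg_neg j) (fun j _ => rfl)

theorem cc_Sq {j : ZMod q} (hj : j ∈ Sq q) : cc q j = cc q 1 := by
  simpa using cc_mul hj 1

theorem cc_NSq (h : q % 4 = 3) {j : ZMod q} (hj : j ∈ NSq q) : cc q j = cc q (-1) := by
  simpa using cc_mul (neg_mem_Sq h hj) (-1)

theorem prod_S {R : Type*} [CommRing R] (h : q % 4 = 3) (ψ : AddChar (ZMod q) R) (x : R) :
    ∏ r ∈ Sq q, (x - ψ r) = aeval x (cc q 0) + (aeval x (cc q 1) * ∑ r ∈ Sq q, ψ r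
      + aeval x (cc q (-1)) * ∑ r ∈ NSq q, ψ r) := by
  rw [prod_expand, sum_split, Finset.mul_sum, Finset.mul_sum, AddChar.map_zero_eq_one, mul_one]
  congr 2
  · exact Finset.sum_congr rfl fun j hj => by rw [cc_Sq hj]
  · exact Finset.sum_congr rfl fun j hj => by rw [cc_NSq h hj]

theorem prod_N {R : Type*} [CommRing R] (h : q % 4 = 3) (ψ : AddChar (ZMod q) R) (x : R) :
    ∏ r ∈ NSq q, (x - ψ r) = aeval x (cc q 0) + (aeval x (cc q 1) * ∑ r ∈ NSq q, ψ r
      + aeval x (cc q (-1)) * ∑ r ∈ Sq q, ψ r) := by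
  have h1 := prod_S h ψ⁻¹ x
  simp only [AddChar.inv_apply] at h1
  rw [← prod_neg' h, h1, sum_neg h, sum_neg' h]

/-- `g = sum (r/q) psi r` -/
noncomputable def gg {R : Type*} [CommRing R] (ψ : AddChar (ZMod q) R) : R :=
  ∑ r ∈ Sq q, ψ r - ∑ r ∈ NSq q, ψ r

theorem two_prod_S {R : Type*} [CommRing R] (h : q % 4 = 3) (ψ : AddChar (ZMod q) R)
    (h0 : ∑ r, ψ r = 0) (x : R) :
    2 * ∏ r ∈ Sq q, (x - ψ r) = aeval x (AA q) + aeval x (BB q) * gg ψ := by
  rw [sum_split, AddChar.map_zero_eq_one] at h0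
  rw [prod_S h, AA, BB, gg]
  simp only [map_sub, map_mul, map_ofNat]
  linear_combination (aeval x (cc q 1) + aeval x (cc q (-1))) * h0

theorem two_prod_N {R : Type*} [CommRing R] (h : q % 4 = 3) (ψ : AddChar (ZMod q) R)
    (h0 : ∑ r, ψ r = 0) (x : R) :
    2 * ∏ r ∈ NSq q, (x - ψ r) = aeval x (AA q) - aeval x (BB q) * gg ψ := by
  rw [sum_split, AddChar.map_zero_eq_one] at h0
  rw [prod_N h, AA, BB, gg]
  simp only [map_sub, map_mul, map_ofNat]
  linear_combination (aeval x (cc q 1) + aeval x (cc q (-1))) * h0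

theorem gg_sq {R : Type*} [CommRing R] [IsDomain R] (h : q % 4 = 3) (hR : (-1 : R) ≠ 1)
    (ψ : AddChar (ZMod q) R) (hψ : ψ.IsPrimitive) : gg ψ ^ 2 = -(q : R) := by
  have h2 : ringChar (ZMod q) ≠ 2 := by
    rw [ZMod.ringChar_zmod_n]
    omega
  set χ : MulChar (ZMod q) R := (quadraticChar (ZMod q)).ringHomComp (Int.castRingHom R) with hχ
  have hg : gg ψ = gaussSum χ ψ := by
    unfold gaussSum gg
    rw [sum_split]
    have e0 : χ 0 * ψ 0 = 0 := by
      rw [hχ]
      simp
    have e1 : ∑ j ∈ Sq q, χ j * ψ j = ∑ j ∈ Sq q, ψ j := by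
      refine Finset.sum_congr rfl fun j hj => ?_
      rw [hχ, MulChar.ringHomComp_apply, mem_Sq.mp hj]
      simp
    have e2 : ∑ j ∈ NSq q, χ j * ψ j = - ∑ j ∈ NSq q, ψ j := by
      rw [← Finset.sum_neg_distrib]
      refine Finset.sum_congr rfl fun j hj => ?_
      rw [hχ, MulChar.ringHomComp_apply, mem_NSq.mp hj]
      simp
    rw [e0, e1, e2]
    ring
  have hχ1 : χ ≠ 1 := by
    intro he
    have h3 : χ (-1) = 1 := by
      rw [he]
      exact MulChar.one_apply (IsUnit.neg isUnit_one)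
    rw [hχ, MulChar.ringHomComp_apply, chi_neg_one h] at h3
    simp at h3
    exact hR h3
  have hχ2 : χ.IsQuadratic := (quadraticChar_isQuadratic (ZMod q)).comp _
  rw [hg, gaussSum_sq hχ1 hχ2 hψ, hχ, MulChar.ringHomComp_apply, chi_neg_one h, ZMod.card]
  simp

theorem card_Sq (h : q % 4 = 3) : (Sq q).card = q / 2 := by
  have h1 : (Sq q).card = (NSq q).card :=
    Finset.card_nbij' (fun j => -j) (fun j => -j) (fun j hj => neg_mem_NSq h hj)
      (fun j hj => neg_mem_Sq h hj) (fun j _ => neg_neg j) (fun j _ => neg_neg j)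
  have h2 := sum_split (q := q) (fun _ => 1)
  simp only [Finset.sum_const, Finset.card_univ, ZMod.card, smul_eq_mul, mul_one] at h2
  omega

theorem card_NSq (h : q % 4 = 3) : (NSq q).card = q / 2 := by
  have h1 : (Sq q).card = (NSq q).card :=
    Finset.card_nbij' (fun j => -j) (fun j => -j) (fun j hj => neg_mem_NSq h hj)
      (fun j hj => neg_mem_Sq h hj) (fun j _ => neg_neg j) (fun j _ => neg_neg j)
  rw [← h1, card_Sq h]

/-- values of `A` modulo `q` -/
theorem AA_mod (h : q % 4 = 3) (x : ℤ) :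
    (((AA q).eval x : ℤ) : ZMod q) = 2 * ((quadraticChar (ZMod q) ((x : ZMod q) - 1) : ℤ) : ZMod q) := by
  have h2 : ringChar (ZMod q) ≠ 2 := by
    rw [ZMod.ringChar_zmod_n]
    omega
  rw [quadraticChar_eq_pow_of_char_ne_two' h2, ZMod.card]
  have h1 := prod_S h (1 : AddChar (ZMod q) (ZMod q)) (x : ZMod q)
  simp only [AddChar.one_apply, Finset.prod_const, Finset.sum_const, card_Sq h, card_NSq h,
    nsmul_eq_mul, mul_one] at h1
  have hm : (2 : ZMod q) * ((q / 2 : ℕ) : ZMod q) = -1 := by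
    have h4 : 2 * (q / 2) + 1 = q := by omega
    have h5 : ((2 * (q / 2) + 1 : ℕ) : ZMod q) = 0 := by
      rw [h4]
      exact ZMod.natCast_self q
    push_cast at h5
    linear_combination h5
  have hx : ∀ P : ℤ[X], aeval (x : ZMod q) P = ((P.eval x : ℤ) : ZMod q) := by
    intro P
    have := Polynomial.aeval_algebraMap_apply_eq_algebraMap_eval (A := ZMod q) x P
    simpa using this
  rw [h1, hx, hx, hx, AA]
  simp only [eval_sub, eval_mul, eval_ofNat]
  push_cast
  linear_combination (-(((cc q 1).eval x : ℤ) : ZMod q) - (((cc q (-1)).eval x : ℤ) : ZMod q)) * hm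

/-- the product over all `r ≠ 0` is the cyclotomic polynomial -/
theorem prod_all {K : Type*} [Field K] {z : K} (hz : IsPrimitiveRoot z q) :
    (∏ r ∈ Sq q, ((X : K[X]) - C (z ^ r.val))) * ∏ r ∈ NSq q, ((X : K[X]) - C (z ^ r.val))
      = cyclotomic q K := by
  have hq : q.Prime := Fact.out
  have h1 := X_pow_sub_one_eq_prod hq.pos hz
  have h2 : ∏ ζ ∈ nthRootsFinset q (1 : K), (X - C ζ) = ∏ r : ZMod q, ((X : K[X]) - C (z ^ r.val)) := by
    symm
    refine Finset.prod_nbij (fun r : ZMod q => z ^ r.val) ?_ ?_ ?_ ?_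
    · intro r _
      rw [mem_nthRootsFinset hq.pos, ← pow_mul, mul_comm, pow_mul, hz.pow_eq_one, one_pow]
    · intro r _ s _ hrs
      exact ZMod.val_injective q (hz.pow_inj (ZMod.val_lt r) (ZMod.val_lt s) hrs)
    · intro w hw
      have hw' : w ^ q = 1 := by
        have := (mem_nthRootsFinset hq.pos (1 : K)).mp hw
        exact this
      obtain ⟨i, hi, rfl⟩ := hz.eq_pow_of_pow_eq_one hw'
      refine ⟨(i : ZMod q), by simp, ?_⟩
      simp only [ZMod.val_natCast, Nat.mod_eq_of_lt hi]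
    · intro r _
      rfl
  rw [h2, prod_split, ← cyclotomic_prime_mul_X_sub_one K q] at h1
  simp only [ZMod.val_zero, pow_zero, map_one] at h1
  have h3 : (X - 1 : K[X]) ≠ 0 := by
    have := X_sub_C_ne_zero (1 : K)
    simpa using this
  apply mul_right_cancel₀ h3
  rw [h1]
  ring

theorem AB_identity (h : q % 4 = 3) :
    4 * cyclotomic q ℤ = (AA q) ^ 2 + (q : ℤ[X]) * (BB q) ^ 2 := by
  have hq : q.Prime := Fact.out
  have hqne : NeZero q := ⟨hq.ne_zero⟩
  obtain ⟨z, hz⟩ : ∃ z : ℂ, IsPrimitiveRoot z q := ⟨_, Complex.isPrimitiveRoot_exp q hq.ne_zero⟩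
  have hz' : IsPrimitiveRoot (C z : ℂ[X]) q := hz.map_of_injective (f := (C : ℂ →+* ℂ[X])) C_injective
  have hz1 : (C z : ℂ[X]) ^ q = 1 := hz'.pow_eq_one
  set ψ : AddChar (ZMod q) ℂ[X] := AddChar.zmodChar q hz1 with hψ
  have hψv : ∀ r, ψ r = C (z ^ r.val) := by
    intro r
    rw [hψ, AddChar.zmodChar_apply, map_pow]
  have hprim : ψ.IsPrimitive := by
    rw [hψ]
    exact AddChar.zmodChar_primitive_of_primitive_root q hz'
  have hψ1 : ψ ≠ 1 := by
    have := hprim one_ne_zero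
    rwa [AddChar.mulShift_one] at this
  have h0 : ∑ r, ψ r = 0 := AddChar.sum_eq_zero_of_ne_one hψ1
  have hneg : (-1 : ℂ[X]) ≠ 1 := by
    intro he
    have := congrArg (eval (0 : ℂ)) he
    simp at this
    norm_num at this
  have hg := gg_sq h hneg ψ hprim
  have e1 := two_prod_S h ψ h0 X
  have e2 := two_prod_N h ψ h0 X
  have e3 := prod_all hz
  simp only [hψv] at e1 e2
  have hX : ∀ P : ℤ[X], (@aeval ℤ ℂ[X] _ _ (Ring.toIntAlgebra ℂ[X]) (X : ℂ[X])) P
      = P.map (Int.castRingHom ℂ) := by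
    intro P
    have hC : (C : ℂ →+* ℂ[X]).comp (Int.castRingHom ℂ) = Int.castRingHom ℂ[X] :=
      RingHom.ext_int _ _
    have e : P.map (Int.castRingHom ℂ) = eval₂ (Int.castRingHom ℂ[X]) X P := by
      conv_lhs => rw [← eval₂_C_X (p := P.map (Int.castRingHom ℂ)), eval₂_map, hC]
    rw [e]
    rfl
  rw [hX, hX] at e1 e2
  apply Polynomial.map_injective (Int.castRingHom ℂ) Int.cast_injective
  have e4 : (4 : ℂ[X]) * cyclotomic q ℂ = ((AA q).map (Int.castRingHom ℂ)) ^ 2
      - ((BB q).map (Int.castRingHom ℂ)) ^ 2 * gg ψ ^ 2 := by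
    rw [← e3]
    linear_combination (2 * ∏ x ∈ NSq q, ((X : ℂ[X]) - C (z ^ x.val))) * e1
      + ((AA q).map (Int.castRingHom ℂ) + (BB q).map (Int.castRingHom ℂ) * gg ψ) * e2
  rw [hg] at e4
  simp only [Polynomial.map_mul, Polynomial.map_add, Polynomial.map_pow, map_cyclotomic,
    Polynomial.map_ofNat, Polynomial.map_natCast]
  rw [e4]
  ring

section values

variable (h : q % 4 = 3) (h3 : q ≠ 3)

include h in
theorem AB_eval (x : ℤ) :
    4 * (cyclotomic q ℤ).eval x = ((AA q).eval x) ^ 2 + (q : ℤ) * ((BB q).eval x) ^ 2 := by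
  have := congrArg (eval x) (AB_identity h)
  simpa using this

include h in
theorem AA_dvd (x : ℤ) : (q : ℤ) ∣ (AA q).eval x - 2 * quadraticChar (ZMod q) ((x : ZMod q) - 1) := by
  rw [← ZMod.intCast_zmod_eq_zero_iff_dvd]
  push_cast
  rw [AA_mod h]
  ring

include h h3 in
theorem q_ge : 7 ≤ q := by
  have hq : q.Prime := Fact.out
  have := hq.two_le
  omega

include h h3 in
theorem AA_one : (AA q).eval 1 = 0 := by
  have h7 := q_ge h h3
  have e := AB_eval h 1
  have hq1 : (cyclotomic q ℤ).eval 1 = q := eval_one_cyclotomic_prime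
  rw [hq1] at e
  have hd := AA_dvd h 1
  simp only [Int.cast_one, sub_self] at hd
  rw [quadraticChar_zero] at hd
  simp only [mul_zero, sub_zero] at hd
  obtain ⟨k, hk⟩ := hd
  rw [hk] at e ⊢
  have hqpos : (0 : ℤ) < q := by exact_mod_cast (by omega : 0 < q)
  have e2 : (4 : ℤ) = q * k ^ 2 + ((BB q).eval 1) ^ 2 := by
    have : (q : ℤ) * 4 = q * (q * k ^ 2 + ((BB q).eval 1) ^ 2) := by linear_combination e
    exact mul_left_cancel₀ hqpos.ne' this
  have hk0 : k = 0 := by
    by_contra hne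
    have h1 : 1 ≤ k ^ 2 := by
      have : 0 < k ^ 2 := by positivity
      linarith
    have h8 : (7 : ℤ) ≤ q := by exact_mod_cast h7
    nlinarith [sq_nonneg ((BB q).eval 1)]
  rw [hk0]
  ring

include h h3 in
theorem BB_one : ((BB q).eval 1) ^ 2 = 4 := by
  have e := AB_eval h 1
  have hq1 : (cyclotomic q ℤ).eval 1 = q := eval_one_cyclotomic_prime
  have hq : q.Prime := Fact.out
  have hqpos : (0 : ℤ) < q := by exact_mod_cast hq.pos
  rw [hq1, AA_one h h3] at e
  have : (q : ℤ) * ((BB q).eval 1) ^ 2 = q * 4 := by linear_combination -e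
  exact mul_left_cancel₀ hqpos.ne' this

include h in
theorem cyc_neg_one : (cyclotomic q ℤ).eval (-1) = 1 := by
  have e := congrArg (eval (-1 : ℤ)) (cyclotomic_prime_mul_X_sub_one ℤ q)
  have hodd : Odd q := Nat.odd_iff.mpr (by omega)
  simp only [eval_mul, eval_sub, eval_X, eval_one, eval_pow, hodd.neg_one_pow] at e
  linarith

include h h3 in
theorem BB_neg_one : (BB q).eval (-1) = 0 := by
  have h7 := q_ge h h3
  have e := AB_eval h (-1)
  rw [cyc_neg_one h] at e
  by_contra hne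
  have h1 : 1 ≤ ((BB q).eval (-1)) ^ 2 := by
    have : 0 < ((BB q).eval (-1)) ^ 2 := by positivity
    linarith
  have h8 : (7 : ℤ) ≤ q := by exact_mod_cast h7
  nlinarith [sq_nonneg ((AA q).eval (-1))]

include h h3 in
theorem AA_neg_one : (AA q).eval (-1) = 2 * quadraticChar (ZMod q) (-2) := by
  have h7 := q_ge h h3
  have e := AB_eval h (-1)
  rw [cyc_neg_one h, BB_neg_one h h3] at e
  have hA : (AA q).eval (-1) = 2 ∨ (AA q).eval (-1) = -2 := by
    have : ((AA q).eval (-1) - 2) * ((AA q).eval (-1) + 2) = 0 := by linear_combination -e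
    rcases mul_eq_zero.mp this with h1 | h1
    · left; linarith
    · right; linarith
  have hd := AA_dvd h (-1)
  have h2ne : (-2 : ZMod q) ≠ 0 := by
    intro h0
    have h2 : ((-2 : ℤ) : ZMod q) = 0 := by push_cast; exact h0
    rw [ZMod.intCast_zmod_eq_zero_iff_dvd] at h2
    have := Int.le_of_dvd (by norm_num) ((dvd_neg).mpr h2)
    have h8 : (7 : ℤ) ≤ q := by exact_mod_cast h7
    linarith
  have hx : ((-1 : ℤ) : ZMod q) - 1 = -2 := by
    push_cast
    ring
  rw [hx] at hd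
  have h8 : (7 : ℤ) ≤ q := by exact_mod_cast h7
  rcases quadraticChar_dichotomy h2ne with h1 | h1 <;> rw [h1] at hd ⊢ <;>
    rcases hA with hA | hA <;> rw [hA] at hd ⊢ <;> norm_num at hd ⊢
  · have := Int.le_of_dvd (by norm_num) hd
    linarith
  · have := Int.le_of_dvd (by norm_num) hd
    linarith

include h in
theorem cyc_deriv_neg_one : 2 * (cyclotomic q ℤ).derivative.eval (-1) = 1 - q := by
  have e := congrArg (fun P => eval (-1 : ℤ) (derivative P)) (cyclotomic_prime_mul_X_sub_one ℤ q)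
  have hodd : Odd q := Nat.odd_iff.mpr (by omega)
  have hev : Even (q - 1) := by
    rw [Nat.even_iff]
    omega
  simp only [derivative_mul, derivative_sub, derivative_X, derivative_one, derivative_X_pow,
    eval_add, eval_mul, eval_sub, eval_X, eval_one, eval_pow, cyc_neg_one h, hev.neg_one_pow] at e
  simp at e
  linarith

include h h3 in
theorem AA_deriv_neg_one :
    2 * (AA q).derivative.eval (-1) = quadraticChar (ZMod q) (-2) * (1 - q) := by
  have e := congrArg (fun P => eval (-1 : ℤ) (derivative P)) (AB_identity h)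
  have hA := AA_neg_one h h3
  have hB := BB_neg_one h h3
  have h2ne : (quadraticChar (ZMod q) (-2)) ^ 2 = 1 := by
    have h7 := q_ge h h3
    apply quadraticChar_sq_one
    intro h0
    have h2 : ((-2 : ℤ) : ZMod q) = 0 := by push_cast; exact h0
    rw [ZMod.intCast_zmod_eq_zero_iff_dvd] at h2
    have := Int.le_of_dvd (by norm_num) ((dvd_neg).mpr h2)
    have h8 : (7 : ℤ) ≤ q := by exact_mod_cast h7
    linarith
  have h4 : derivative (4 : ℤ[X]) = 0 := derivative_ofNat 4
  simp only [derivative_mul, derivative_add, derivative_pow, derivative_natCast, h4,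
    eval_add, eval_mul, eval_pow, eval_natCast, hA, hB] at e
  simp [-quadraticChar_apply] at e
  have e3 := cyc_deriv_neg_one h
  set ε := quadraticChar (ZMod q) (-2) with hε
  have e4 : 2 * (2 * (cyclotomic q ℤ).derivative.eval (-1)) = 2 * (2 * (ε * (AA q).derivative.eval (-1))) := by
    linarith
  have e5 : 2 * (ε * (AA q).derivative.eval (-1)) = 1 - q := by linarith
  calc 2 * (AA q).derivative.eval (-1) = ε ^ 2 * (2 * (AA q).derivative.eval (-1)) := by
        rw [h2ne, one_mul]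
    _ = ε * (2 * (ε * (AA q).derivative.eval (-1))) := by ring
    _ = ε * (1 - q) := by rw [e5]

end values

end Pool.Agent.Lib.MP_d1f1b5_nt.QR
end

section
set_option autoImplicit false

/-!
Local facts at a prime `l` dividing `F(p,q)`, when `F(p,q)` divides `F(q,p)`.
-/

namespace Pool.Agent.Lib.MP_d1f1b5_nt.QR

open Finset Polynomial

/-- `F(a,n)` as a geometric sum -/
def FF (a n : ℕ) : ℕ := ∑ i ∈ range n, a ^ i

theorem FF_eq {a n : ℕ} (ha : 2 ≤ a) : (a ^ n - 1) / (a - 1) = FF a n :=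
  (Nat.geomSum_eq ha n).symm

theorem FF_cyc {a q : ℕ} [Fact q.Prime] : ((FF a q : ℕ) : ℤ) = (cyclotomic q ℤ).eval (a : ℤ) := by
  rw [cyclotomic_prime, FF]
  simp [eval_finsetSum]

theorem FF_mod_one {a n m : ℕ} (h : a ≡ 1 [MOD m]) : FF a n ≡ n [MOD m] := by
  have h1 : FF a n ≡ ∑ i ∈ range n, 1 [MOD m] := by
    unfold FF
    apply Nat.ModEq.sum
    intro i _
    simpa using h.pow i
  simpa using h1

theorem FF_mod_base {a n : ℕ} (hn : 0 < n) : FF a n ≡ 1 [MOD a] := by
  obtain ⟨k, rfl⟩ : ∃ k, n = k + 1 := ⟨n - 1, by omega⟩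
  unfold FF
  rw [Finset.sum_range_succ']
  have h1 : ∑ i ∈ range k, a ^ (i + 1) ≡ 0 [MOD a] := by
    rw [Nat.modEq_zero_iff_dvd]
    exact Finset.dvd_sum fun i _ => dvd_pow_self a (by omega)
  simpa using h1.add_right 1

theorem FF_zmod {a n l : ℕ} (h : l ∣ FF a n) : ∑ i ∈ range n, (a : ZMod l) ^ i = 0 := by
  have := (ZMod.natCast_eq_zero_iff _ _).mpr h
  rw [FF] at this
  push_cast at this
  exact this

theorem FF_pow {a n l : ℕ} (h : l ∣ FF a n) : (a : ZMod l) ^ n = 1 := by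
  have h1 := FF_zmod h
  have h2 := geom_sum_mul (a : ZMod l) n
  rw [h1, zero_mul] at h2
  exact (sub_eq_zero.mp h2.symm)

section main

variable {p q : ℕ} [hq : Fact q.Prime] (hp : p.Prime) (hpq : p ≠ q) (hp2 : Odd p)
  (hd : FF p q ∣ FF q p)

include hp hd in
theorem not_dvd_q : ¬ q ∣ FF p q := by
  intro h
  have h1 : q ∣ FF q p := h.trans hd
  have h2 := FF_mod_base (a := q) (n := p) hp.pos
  have h3 : (1 : ℕ) ≡ 0 [MOD q] := h2.symm.trans ((Nat.modEq_zero_iff_dvd).mpr h1)
  have h4 := (Nat.modEq_zero_iff_dvd).mp h3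
  exact hq.out.one_lt.ne' (Nat.dvd_one.mp h4)

include hp hd in
theorem prim_root {l : ℕ} (hl : l.Prime) (hlN : l ∣ FF p q) : IsPrimitiveRoot (p : ZMod l) q := by
  have : Fact l.Prime := ⟨hl⟩
  have h1 := FF_pow hlN
  have h2 : (p : ZMod l) ≠ 1 := by
    intro h
    have h3 := FF_zmod hlN
    rw [h] at h3
    simp only [one_pow, sum_const, card_range, nsmul_eq_mul, mul_one] at h3
    rw [ZMod.natCast_eq_zero_iff] at h3
    have h4 : l = q := (Nat.prime_dvd_prime_iff_eq hl hq.out).mp h3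
    exact not_dvd_q hp hd (h4 ▸ hlN)
  have h3 : orderOf (p : ZMod l) = q := orderOf_eq_prime h1 h2
  rw [← h3]
  exact IsPrimitiveRoot.orderOf _

omit hq in
theorem FF_odd (h2 : Odd p) (hqo : Odd q) : Odd (FF p q) := by
  unfold FF
  have h1 : ∑ i ∈ range q, p ^ i ≡ ∑ i ∈ range q, 1 [MOD 2] := by
    apply Nat.ModEq.sum
    intro i _
    have : p ≡ 1 [MOD 2] := by
      rw [Nat.ModEq, Nat.odd_iff.mp h2]
    simpa using this.pow i
  simp only [sum_const, card_range, smul_eq_mul, mul_one] at h1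
  rw [Nat.odd_iff] at hqo ⊢
  rw [h1.trans (rfl : q ≡ q [MOD 2])] 
  exact hqo

omit hq in
include hp2 in
theorem ne_two (hqo : Odd q) {l : ℕ} (hlN : l ∣ FF p q) : l ≠ 2 := by
  rintro rfl
  have h1 := FF_odd hp2 hqo
  rw [← Nat.not_even_iff_odd] at h1
  exact h1 (even_iff_two_dvd.mpr hlN)

/-- a square root of `-1` -/
theorem exists_i (h : q % 4 = 3) {l : ℕ} [Fact l.Prime] (hl2 : l ≠ 2)
    (hz : IsPrimitiveRoot (p : ZMod l) q) (hw : (q : ZMod l) ^ p = 1) (t : ZMod l)
    (ht : t ^ 2 = (q : ZMod l)) (ψ : AddChar (ZMod q) (ZMod l)) (hψ : ψ.IsPrimitive) :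
    (gg ψ * t⁻¹) ^ 2 = -1 := by
  have hneg : (-1 : ZMod l) ≠ 1 := by
    have : Fact (2 < l) := ⟨by
      have := (Fact.out : l.Prime).two_le
      omega⟩
    exact ZMod.neg_one_ne_one
  have hg := gg_sq h hneg ψ hψ
  have hw0 : (q : ZMod l) ≠ 0 := by
    intro h0
    rw [h0] at hw
    by_cases hp0 : p = 0
    · subst hp0
      have := hz.eq_orderOf
      simp at hz
      simp at this
      have h5 := hq.out.two_le
      omega
    · rw [zero_pow hp0] at hw
      exact zero_ne_one hw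
  have ht0 : t ≠ 0 := by
    rintro rfl
    apply hw0
    rw [← ht]
    ring
  rw [mul_pow, hg, inv_pow, ht]
  field_simp

include hp hd hp2 in
theorem mod_four (h : q % 4 = 3) {l : ℕ} (hl : l.Prime) (hlN : l ∣ FF p q) : l % 4 = 1 := by
  have : Fact l.Prime := ⟨hl⟩
  have hqo : Odd q := Nat.odd_iff.mpr (by omega)
  have hl2 : l ≠ 2 := ne_two hp2 hqo hlN
  have hz := prim_root hp hd hl hlN
  have hw : (q : ZMod l) ^ p = 1 := FF_pow (hlN.trans hd)
  have ht : ((q : ZMod l) ^ ((p + 1) / 2)) ^ 2 = (q : ZMod l) := by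
    rw [← pow_mul]
    have : (p + 1) / 2 * 2 = p + 1 := by
      have := Nat.odd_iff.mp hp2
      omega
    rw [this, pow_succ, hw, one_mul]
  have hi := exists_i h hl2 hz hw _ ht (AddChar.zmodChar q hz.pow_eq_one)
    (AddChar.zmodChar_primitive_of_primitive_root q hz)
  have hsq : IsSquare (-1 : ZMod l) := ⟨_, by rw [← hi, sq]⟩
  have h4 := (ZMod.exists_sq_eq_neg_one_iff (p := l)).mp hsq
  have := hl.eq_two_or_odd
  omega

include hp hd hp2 in
theorem AB_local (h : q % 4 = 3) (hp4 : p % 4 = 3) {l : ℕ} [Fact l.Prime]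
    (hlN : l ∣ FF p q) :
    legendreSym l ((AA q).eval (p : ℤ) * (BB q).eval (p : ℤ)) = legendreSym l 2 := by
  have hl : l.Prime := Fact.out
  have hqo : Odd q := Nat.odd_iff.mpr (by omega)
  have hl2 : l ≠ 2 := ne_two hp2 hqo hlN
  have hl4 := mod_four hp hp2 hd h hl hlN
  have hz := prim_root hp hd hl hlN
  have hw : (q : ZMod l) ^ p = 1 := FF_pow (hlN.trans hd)
  have hneg : (-1 : ZMod l) ≠ 1 := by
    have : Fact (2 < l) := ⟨by
      have := hl.two_le
      omega⟩
    exact ZMod.neg_one_ne_one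
  have h2ne : (2 : ZMod l) ≠ 0 := by
    intro h0
    apply hneg
    linear_combination -h0
  set ψ := AddChar.zmodChar q hz.pow_eq_one with hψ
  have hψp : ψ.IsPrimitive := AddChar.zmodChar_primitive_of_primitive_root q hz
  have hψ1 : ψ ≠ 1 := by
    have := hψp one_ne_zero
    rwa [AddChar.mulShift_one] at this
  have h0 : ∑ r, ψ r = 0 := AddChar.sum_eq_zero_of_ne_one hψ1
  set s : ZMod l := (q : ZMod l) ^ ((p + 1) / 4) with hs
  have hs4 : s ^ 4 = (q : ZMod l) := by
    rw [hs, ← pow_mul]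
    have : (p + 1) / 4 * 4 = p + 1 := by omega
    rw [this, pow_succ, hw, one_mul]
  have hi := exists_i h hl2 hz hw (s ^ 2) (by rw [← hs4]; ring) ψ hψp
  set i : ZMod l := gg ψ * (s ^ 2)⁻¹ with hi'
  have hw0 : (q : ZMod l) ≠ 0 := by
    intro h00
    rw [h00, zero_pow hp.ne_zero] at hw
    exact zero_ne_one hw
  have hs0 : s ≠ 0 := by
    intro h00
    apply hw0
    rw [← hs4, h00]
    ring
  have hg : gg ψ = i * s ^ 2 := by
    rw [hi']
    field_simp
  have hval : ∀ P : ℤ[X], aeval (p : ZMod l) P = ((P.eval (p : ℤ) : ℤ) : ZMod l) := by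
    intro P
    have := Polynomial.aeval_algebraMap_apply_eq_algebraMap_eval (A := ZMod l) (p : ℤ) P
    simpa using this
  have eS := two_prod_S h ψ h0 (p : ZMod l)
  have eN := two_prod_N h ψ h0 (p : ZMod l)
  rw [hval, hval] at eS eN
  set a : ZMod l := (((AA q).eval (p : ℤ) : ℤ) : ZMod l) with ha
  set b : ZMod l := (((BB q).eval (p : ℤ) : ℤ) : ZMod l) with hb
  have hψv : ∀ r, ψ r = (p : ZMod l) ^ r.val := fun r => by rw [hψ, AddChar.zmodChar_apply]
  have hfact1 : Fact (1 < q) := ⟨hq.out.one_lt⟩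
  have hS0 : ∏ r ∈ Sq q, ((p : ZMod l) - ψ r) = 0 := by
    apply Finset.prod_eq_zero (i := (1 : ZMod q))
    · rw [mem_Sq]
      exact map_one _
    · rw [hψv, ZMod.val_one, pow_one, sub_self]
  have hN0 : ∏ r ∈ NSq q, ((p : ZMod l) - ψ r) ≠ 0 := by
    rw [Finset.prod_ne_zero_iff]
    intro r hr he
    rw [hψv, sub_eq_zero] at he
    have h1 : (1 : ℕ) = r.val := by
      apply hz.pow_inj hq.out.one_lt (ZMod.val_lt r)
      rw [pow_one]
      exact he
    have h2 : r = 1 := by
      apply ZMod.val_injective q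
      rw [ZMod.val_one, ← h1]
    rw [h2, mem_NSq] at hr
    rw [map_one] at hr
    norm_num at hr
  rw [hS0, mul_zero] at eS
  have hN1 : a - b * gg ψ ≠ 0 := by
    rw [← eN]
    exact mul_ne_zero h2ne hN0
  have ha1 : a = -(b * gg ψ) := by linear_combination -eS
  have hb0 : b ≠ 0 := by
    intro h00
    apply hN1
    rw [ha1, h00]
    ring
  have hab : a * b = -1 * (i * (b * s) ^ 2) := by
    rw [ha1, hg]
    ring
  have hbs : b * s ≠ 0 := mul_ne_zero hb0 hs0
  have hrc : ringChar (ZMod l) ≠ 2 := by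
    rw [ZMod.ringChar_zmod_n]
    exact hl2
  have hi0 : i ≠ 0 := by
    intro h00
    rw [h00] at hi
    have : (-1 : ZMod l) = 0 := by rw [← hi]; ring
    exact (neg_ne_zero.mpr one_ne_zero) this
  have hm1 : quadraticChar (ZMod l) (-1) = 1 := by
    rw [quadraticChar_one_iff_isSquare (neg_ne_zero.mpr one_ne_zero)]
    exact ⟨i, by rw [← hi, sq]⟩
  have hfin : legendreSym l ((AA q).eval (p : ℤ) * (BB q).eval (p : ℤ)) = quadraticChar (ZMod l) i := by
    rw [legendreSym]
    push_cast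
    rw [← ha, ← hb, hab, map_mul, map_mul, hm1, map_pow, quadraticChar_sq_one hbs]
    ring
  rw [hfin, legendreSym.at_two hl2]
  have hpow := quadraticChar_eq_pow_of_char_ne_two' hrc i
  rw [ZMod.card] at hpow
  have hcase : l % 8 = 1 ∨ l % 8 = 5 := by omega
  have hi4 : i ^ 4 = 1 := by
    have : i ^ 4 = (i ^ 2) ^ 2 := by ring
    rw [this, hi]
    ring
  rcases hcase with h8 | h8
  · have h9 : l / 2 = 4 * (l / 8) := by omega
    rw [h9, pow_mul, hi4, one_pow] at hpow
    have h10 : ZMod.χ₈ (l : ZMod 8) = 1 := by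
      rw [ZMod.χ₈_nat_eq_if_mod_eight]
      simp [h8]
      omega
    rw [h10]
    rcases quadraticChar_dichotomy hi0 with h11 | h11
    · exact h11
    · rw [h11] at hpow
      push_cast at hpow
      exact absurd hpow hneg
  · have h9 : l / 2 = 4 * (l / 8) + 2 := by omega
    rw [h9, pow_add, pow_mul, hi4, one_pow, one_mul, hi] at hpow
    have h10 : ZMod.χ₈ (l : ZMod 8) = -1 := by
      rw [ZMod.χ₈_nat_eq_if_mod_eight]
      simp [h8]
      omega
    rw [h10]
    rcases quadraticChar_dichotomy hi0 with h11 | h11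
    · rw [h11] at hpow
      push_cast at hpow
      exact absurd hpow.symm hneg
    · exact h11

end main

end Pool.Agent.Lib.MP_d1f1b5_nt.QR
end

section
set_option autoImplicit false

/-!
The quartic reciprocity condition.
-/

namespace Pool.Agent.Lib.MP_d1f1b5_nt.QR

open Finset Polynomial NumberTheorySymbols

theorem jac_congr (a b : ℤ) (n : ℕ)
    (h : ∀ (l : ℕ) (hl : l.Prime), l ∣ n → @legendreSym l ⟨hl⟩ a = @legendreSym l ⟨hl⟩ b) :
    J(a | n) = J(b | n) := by
  unfold jacobiSym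
  congr 1
  apply List.pmap_congr_left
  intro l hl h1 h2
  exact h l h1 (Nat.dvd_of_mem_primeFactorsList hl)

section main

variable {p q : ℕ} [hq : Fact q.Prime] (hp : p.Prime) (hpq : p ≠ q) (hp2 : Odd p)
  (hd : FF p q ∣ FF q p) (h : q % 4 = 3) (h3 : q ≠ 3)

include hp hd hp2 h in
theorem N_mod_four : FF p q % 4 = 1 := by
  have hqo : Odd q := Nat.odd_iff.mpr (by omega)
  have hodd := FF_odd hp2 hqo
  have h1 : J(-1 | FF p q) = J(1 | FF p q) := by
    apply jac_congr
    intro l hl hlN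
    have : Fact l.Prime := ⟨hl⟩
    have hl2 : l ≠ 2 := ne_two hp2 hqo hlN
    rw [legendreSym.at_neg_one hl2, legendreSym.at_one]
    exact ZMod.χ₄_nat_one_mod_four (mod_four hp hp2 hd h hl hlN)
  rw [jacobiSym.one_left, jacobiSym.at_neg_one hodd] at h1
  have h2 := Nat.odd_iff.mp hodd
  by_contra hne
  have h5 : FF p q % 4 = 3 := by omega
  rw [ZMod.χ₄_nat_three_mod_four h5] at h1
  norm_num at h1

include hp hd hp2 h in
theorem p_mod_four : p % 4 = 3 := by
  have h1 := N_mod_four hp hp2 hd h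
  have h2 := Nat.odd_iff.mp hp2
  by_contra hne
  have h5 : p % 4 = 1 := by omega
  have h6 := FF_mod_one (a := p) (n := q) (m := 4) h5
  rw [Nat.ModEq, h1, h] at h6
  norm_num at h6

include hp hd hp2 h in
theorem J_AB : J((AA q).eval (p : ℤ) * (BB q).eval (p : ℤ) | FF p q) = J(2 | FF p q) := by
  apply jac_congr
  intro l hl hlN
  have : Fact l.Prime := ⟨hl⟩
  exact AB_local hp hp2 hd h (p_mod_four hp hp2 hd h) hlN

end main

/-- purely about integers: the end of the argument -/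
theorem endgame {a b : ℤ} {N q : ℕ} (hN4 : N % 4 = 1) (hq4 : q % 4 = 3)
    (hN : (N : ℤ) = a ^ 2 + q * b ^ 2) (ha : a % 2 = 1) (hb : b % 2 = 0) (hb0 : b ≠ 0)
    (hJ : J(a * b | N) = J(2 | N)) :
    J(a | q) = if a % 4 = 1 then 1 else -1 := by
  have hNodd : Odd N := Nat.odd_iff.mpr (by omega)
  have hqodd : Odd q := Nat.odd_iff.mpr (by omega)
  have hN0 : NeZero N := ⟨by omega⟩
  have hneg1 : J(-1 | N) = 1 := by
    rw [jacobiSym.at_neg_one hNodd]
    exact ZMod.χ₄_nat_one_mod_four hN4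
  have habs : ∀ c : ℤ, J(c | N) = J((c.natAbs : ℤ) | N) := by
    intro c
    rcases Int.natAbs_eq c with hc | hc
    · rw [← hc]
    · conv_lhs => rw [hc]
      rw [← neg_one_mul, jacobiSym.mul_left, hneg1, one_mul]
  have h2N : J(2 | N) ≠ 0 := by
    rw [Ne, jacobiSym.eq_zero_iff_not_coprime, not_not]
    have : Int.gcd 2 N = Nat.gcd 2 N := by
      rw [Int.gcd_eq_natAbs]
      rfl
    rw [this]
    exact (Nat.coprime_two_left).mpr hNodd
  rw [jacobiSym.mul_left] at hJ
  have haN : J(a | N) ≠ 0 := by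
    intro h0
    rw [h0, zero_mul] at hJ
    exact h2N hJ.symm
  have hbN : J(b | N) ≠ 0 := by
    intro h0
    rw [h0, mul_zero] at hJ
    exact h2N hJ.symm
  have hgab : a.gcd N = 1 := by
    by_contra hne
    exact haN (jacobiSym.eq_zero_iff_not_coprime.mpr hne)
  -- J(u|N) = 1 for odd u dividing b
  have hu : ∀ u : ℕ, Odd u → (u : ℤ) ∣ b → J((u : ℤ) | N) = 1 := by
    intro u huo hub
    rw [jacobiSym.quadratic_reciprocity_one_mod_four' huo hN4]
    have h1 : J((N : ℤ) | u) = J(a ^ 2 | u) := by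
      apply jacobiSym.mod_left'
      rw [hN]
      apply Int.ModEq.symm
      rw [Int.modEq_iff_dvd]
      have : a ^ 2 + (q : ℤ) * b ^ 2 - a ^ 2 = b * (q * b) := by ring
      rw [this]
      exact hub.mul_right _
    rw [h1]
    apply jacobiSym.sq_one'
    -- gcd a u = 1
    have h2 : (a.gcd u : ℤ) ∣ (N : ℤ) := by
      rw [hN]
      exact dvd_add ((Int.gcd_dvd_left _ _).trans (dvd_pow_self a two_ne_zero))
        (((Int.gcd_dvd_right _ _).trans hub).trans ((dvd_pow_self b two_ne_zero).mul_left _))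
    have h4 : a.gcd u ∣ a.gcd N := by
      rw [Int.dvd_gcd_iff]
      exact ⟨Int.gcd_dvd_left _ _, h2⟩
    rw [hgab] at h4
    exact Nat.dvd_one.mp h4
  have hJb : J(b | N) = J(2 | N) := by
    have hN8 : N % 8 = 1 ∨ N % 8 = 5 := by omega
    rw [habs]
    have hnb : b.natAbs ≠ 0 := Int.natAbs_ne_zero.mpr hb0
    obtain ⟨e, u, huo, he⟩ := Nat.exists_eq_two_pow_mul_odd hnb
    have hub : (u : ℤ) ∣ b := by
      rw [← Int.dvd_natAbs, he]
      push_cast
      exact Dvd.intro_left _ rfl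
    have hmain : J((b.natAbs : ℤ) | N) = J(2 | N) ^ e := by
      rw [he]
      push_cast
      rw [jacobiSym.mul_left, jacobiSym.pow_left, hu u huo hub, mul_one]
    rcases hN8 with h8 | h8
    · have h2 : J(2 | N) = 1 := by
        rw [jacobiSym.at_two hNodd, ZMod.χ₈_nat_eq_if_mod_eight]
        simp [h8]
        omega
      rw [hmain, h2, one_pow]
    · -- b = 2 mod 4
      have hb4 : b % 4 = 2 := by
        by_contra hne
        have hb4 : b % 4 = 0 := by omega
        obtain ⟨c, hc⟩ : ∃ c, b = 4 * c := ⟨b / 4, by omega⟩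
        obtain ⟨d, hd⟩ : ∃ d, a = 2 * d + 1 := ⟨a / 2, by omega⟩
        have h9 : (N : ℤ) = 4 * (d * (d + 1)) + 1 + 16 * (q * c ^ 2) := by
          rw [hN, hc, hd]
          ring
        obtain ⟨k, hk⟩ := Int.even_mul_succ_self d
        rw [hk] at h9
        omega
      have he1 : e = 1 := by
        rcases e with _ | _ | e
        · exfalso
          simp at he
          have : b.natAbs % 2 = 1 := by rw [he]; exact Nat.odd_iff.mp huo
          omega
        · rfl
        · exfalso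
          have : b.natAbs = 4 * (2 ^ e * u) := by
            rw [he]
            ring
          omega
      rw [hmain, he1, pow_one]
  rw [hJb] at hJ
  have hJa : J(a | N) = 1 := by
    have : J(a | N) * J(2 | N) = 1 * J(2 | N) := by rw [hJ, one_mul]
    exact mul_right_cancel₀ h2N this
  rw [habs] at hJa
  have haodd : Odd a.natAbs := by
    rw [Nat.odd_iff]
    omega
  rw [jacobiSym.quadratic_reciprocity_one_mod_four' haodd hN4] at hJa
  have h1 : J((N : ℤ) | a.natAbs) = J((q : ℤ) * b ^ 2 | a.natAbs) := by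
    apply jacobiSym.mod_left'
    rw [hN]
    apply Int.ModEq.symm
    rw [Int.modEq_iff_dvd]
    have : a ^ 2 + (q : ℤ) * b ^ 2 - (q : ℤ) * b ^ 2 = a * a := by ring
    rw [this, Int.natAbs_dvd]
    exact Dvd.intro _ rfl
  rw [h1, jacobiSym.mul_left] at hJa
  have hgb : b.gcd a.natAbs = 1 := by
    have h2 : (b.gcd a.natAbs : ℤ) ∣ (N : ℤ) := by
      rw [hN]
      exact dvd_add (((Int.gcd_dvd_right _ _).trans (Int.natAbs_dvd.mpr dvd_rfl)).trans
        (dvd_pow_self a two_ne_zero))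
        ((Int.gcd_dvd_left _ _).trans ((dvd_pow_self b two_ne_zero).mul_left _))
    have h4 : b.gcd a.natAbs ∣ a.gcd N := by
      rw [Int.dvd_gcd_iff]
      exact ⟨(Int.gcd_dvd_right _ _).trans (Int.natAbs_dvd.mpr dvd_rfl), h2⟩
    rw [hgab] at h4
    exact Nat.dvd_one.mp h4
  rw [jacobiSym.sq_one' hgb, mul_one] at hJa
  have hq1 : J(-1 | q) = -1 := by
    rw [jacobiSym.at_neg_one hqodd]
    exact ZMod.χ₄_nat_three_mod_four hq4
  have hcase : a.natAbs % 4 = 1 ∨ a.natAbs % 4 = 3 := by omega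
  rcases hcase with h4 | h4
  · have h5 : J((a.natAbs : ℤ) | q) = 1 := by
      rw [jacobiSym.quadratic_reciprocity_one_mod_four h4 hqodd]
      exact hJa
    rcases Int.natAbs_eq a with hc | hc
    · rw [← hc] at h5
      rw [h5, if_pos (by omega)]
    · rw [if_neg (by omega)]
      conv_lhs => rw [hc]
      rw [← neg_one_mul, jacobiSym.mul_left, hq1, h5]
      norm_num
  · have h5 : J((a.natAbs : ℤ) | q) = -1 := by
      rw [jacobiSym.quadratic_reciprocity_three_mod_four h4 hq4, hJa]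
    rcases Int.natAbs_eq a with hc | hc
    · rw [← hc] at h5
      rw [h5, if_neg (by omega)]
    · rw [if_pos (by omega)]
      conv_lhs => rw [hc]
      rw [← neg_one_mul, jacobiSym.mul_left, hq1, h5]
      norm_num

section fin

variable {p q : ℕ} [hq : Fact q.Prime] (hp : p.Prime) (hp2 : Odd p)
  (hd : FF p q ∣ FF q p) (h : q % 4 = 3) (h3 : q ≠ 3)

include hp hd hp2 h h3 in
theorem quartic : J(2 * ((p : ℤ) - 1) | q) * J(2 | p) = -1 := by
  have hN4 := N_mod_four hp hp2 hd h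
  have hp4 := p_mod_four hp hp2 hd h
  have hJ := J_AB hp hp2 hd h
  have hqodd : Odd q := Nat.odd_iff.mpr (by omega)
  have hNodd : Odd (FF p q) := Nat.odd_iff.mpr (by omega)
  set A := (AA q).eval (p : ℤ) with hA
  set B := (BB q).eval (p : ℤ) with hB
  set ε := quadraticChar (ZMod q) (-2) with hε
  have hεc : ε = 1 ∨ ε = -1 := by
    apply quadraticChar_dichotomy
    intro h0
    have h2 : ((-2 : ℤ) : ZMod q) = 0 := by push_cast; exact h0
    rw [ZMod.intCast_zmod_eq_zero_iff_dvd] at h2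
    have := Int.le_of_dvd (by norm_num) ((dvd_neg).mpr h2)
    have h8 : (7 : ℤ) ≤ q := by exact_mod_cast q_ge h h3
    linarith
  -- Taylor expansions at -1
  obtain ⟨m, hm⟩ : ∃ m : ℤ, (p : ℤ) = -1 + 4 * m := ⟨((p : ℤ) + 1) / 4, by omega⟩
  obtain ⟨j, hj⟩ : ∃ j : ℤ, (q : ℤ) = 4 * j + 3 := ⟨(q : ℤ) / 4, by omega⟩
  obtain ⟨kA, hkA⟩ := Polynomial.binomExpansion (AA q) (-1 : ℤ) (4 * m)
  obtain ⟨kB, hkB⟩ := Polynomial.binomExpansion (BB q) (-1 : ℤ) (4 * m)
  rw [← hm, AA_neg_one h h3, ← hε, ← hA] at hkA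
  rw [← hm, BB_neg_one h h3, ← hB] at hkB
  have hder := AA_deriv_neg_one h h3
  rw [← hε, hj] at hder
  have hder2 : (AA q).derivative.eval (-1) = -(ε * (2 * j + 1)) := by linarith
  rw [hder2] at hkA
  obtain ⟨a, ha⟩ : ∃ a, A = 2 * a := ⟨ε - ε * (2 * j + 1) * (2 * m) + 8 * (kA * m ^ 2), by
    rw [hkA]; ring⟩
  obtain ⟨b', hb'⟩ : ∃ b', B = 2 * (2 * b') := ⟨(BB q).derivative.eval (-1) * m + 4 * (kB * m ^ 2), by
    rw [hkB]; ring⟩
  have haval : a = ε - 2 * (ε * (2 * j + 1) * m) + 8 * (kA * m ^ 2) := by linarith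
  have hAB := AB_eval h (p : ℤ)
  rw [← FF_cyc, ← hA, ← hB, ha, hb'] at hAB
  have hN : ((FF p q : ℕ) : ℤ) = a ^ 2 + q * (2 * b') ^ 2 := by linarith
  have ha2 : a % 2 = 1 := by
    rcases hεc with h1 | h1 <;> rw [haval, h1] <;> omega
  have hb2 : (2 * b') % 2 = 0 := by omega
  have hJ4 : J(4 | FF p q) = 1 := jacobiSym.at_four hNodd
  have hJ2 : J(a * (2 * b') | FF p q) = J(2 | FF p q) := by
    rw [ha, hb'] at hJ
    have : 2 * a * (2 * (2 * b')) = 4 * (a * (2 * b')) := by ring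
    rw [this, jacobiSym.mul_left, hJ4, one_mul] at hJ
    exact hJ
  have hN0 : NeZero (FF p q) := ⟨by omega⟩
  have h2N : J(2 | FF p q) ≠ 0 := by
    rw [Ne, jacobiSym.eq_zero_iff_not_coprime, not_not]
    have : Int.gcd 2 (FF p q) = Nat.gcd 2 (FF p q) := by
      rw [Int.gcd_eq_natAbs]
      rfl
    rw [this]
    exact (Nat.coprime_two_left).mpr hNodd
  have hN1 : 1 < FF p q := by
    have h7 := q_ge h h3
    have : p ^ 1 ≤ FF p q := by
      unfold FF
      exact Finset.single_le_sum (f := fun i => p ^ i) (fun i _ => Nat.zero_le _)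
        (Finset.mem_range.mpr (by omega))
    rw [pow_one] at this
    have := hp.two_le
    omega
  have hb0 : 2 * b' ≠ 0 := by
    intro h0
    rw [h0, mul_zero, jacobiSym.zero_left hN1] at hJ2
    exact h2N hJ2.symm
  have hend := endgame hN4 h hN ha2 hb2 hb0 hJ2
  -- the value of J(a|q)
  have hmod := AA_dvd h (p : ℤ)
  rw [← hA, ha] at hmod
  set η := quadraticChar (ZMod q) (((p : ℤ) : ZMod q) - 1) with hη
  have hq2 : IsCoprime (q : ℤ) 2 := by
    rw [Int.isCoprime_iff_gcd_eq_one]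
    have : Int.gcd q 2 = Nat.gcd q 2 := by
      rw [Int.gcd_eq_natAbs]
      rfl
    rw [this]
    exact (Nat.coprime_two_right).mpr hqodd
  have hmod2 : (q : ℤ) ∣ a - η := by
    apply hq2.dvd_of_dvd_mul_left
    rw [mul_sub]
    exact hmod
  have hJa : J(a | q) = J(η | q) := by
    apply jacobiSym.mod_left'
    apply Int.ModEq.symm
    rw [Int.modEq_iff_dvd]
    exact hmod2
  have hqne1 : 1 < q := hq.out.one_lt
  have hq1 : J(-1 | q) = -1 := by
    rw [jacobiSym.at_neg_one hqodd]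
    exact ZMod.χ₄_nat_three_mod_four h
  have hηne : η ≠ 0 := by
    intro h0
    rw [h0, jacobiSym.zero_left hqne1] at hJa
    rw [hJa] at hend
    split_ifs at hend <;> norm_num at hend
  have hηc : η = 1 ∨ η = -1 := by
    by_cases h0 : ((p : ℤ) : ZMod q) - 1 = 0
    · exfalso
      apply hηne
      rw [hη, h0, quadraticChar_zero]
    · exact quadraticChar_dichotomy h0
  have hJη : J(η | q) = η := by
    rcases hηc with h1 | h1
    · rw [h1, jacobiSym.one_left]
    · rw [h1, hq1]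
  have hJp : J(((p : ℤ) - 1) | q) = η := by
    rw [← jacobiSym.legendreSym.to_jacobiSym, legendreSym, hη]
    push_cast
    rfl
  have hJ2q : J(2 | q) = -ε := by
    rw [← jacobiSym.legendreSym.to_jacobiSym, legendreSym, hε]
    have e1 : quadraticChar (ZMod q) (-2) = quadraticChar (ZMod q) (-1) * quadraticChar (ZMod q) 2 := by
      rw [← map_mul]
      congr 1
      ring
    rw [e1, chi_neg_one h]
    push_cast
    ring
  -- a mod 4
  have hp8 : J(2 | p) = if a % 4 = ε % 4 then 1 else -1 := by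
    rw [jacobiSym.at_two hp2, ZMod.χ₈_nat_eq_if_mod_eight]
    have hx : ∃ w : ℤ, ε * (2 * j + 1) * m = w ∧ (w % 2 = m % 2) := by
      refine ⟨_, rfl, ?_⟩
      rcases hεc with h1 | h1
      · rw [h1]
        have : 1 * (2 * j + 1) * m = m + 2 * (j * m) := by ring
        rw [this]
        omega
      · rw [h1]
        have : -1 * (2 * j + 1) * m = m + 2 * (-(m + j * m)) := by ring
        rw [this]
        omega
    obtain ⟨w, hw1, hw2⟩ := hx
    rw [hw1] at haval
    rcases Int.emod_two_eq_zero_or_one m with hm2 | hm2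
    · have h8 : p % 8 = 7 := by omega
      have h9 : a % 4 = ε % 4 := by omega
      rw [if_pos h9]
      simp [h8]
      omega
    · have h8 : p % 8 = 3 := by omega
      have h9 : ¬ (a % 4 = ε % 4) := by
        rcases hεc with h1 | h1 <;> rw [h1] at haval ⊢ <;> omega
      rw [if_neg h9]
      simp [h8]
      omega
  rw [jacobiSym.mul_left, hJ2q, hJp, hp8]
  rw [hJa, hJη] at hend
  rw [hend]
  rcases hεc with h1 | h1 <;> rw [h1] <;> split_ifs <;> first | omega | norm_num

end fin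

end Pool.Agent.Lib.MP_d1f1b5_nt.QR
end
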